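import Mathlib
import Pool.Agent.H627.LR.Gd

/-!
The duplication on first coordinates of the points of an elliptic curve: a pair of binary forms of
degree `4`, with good reduction where the curve has good reduction.
-/

set_option autoImplicit false
set_option linter.unusedSectionVars false

namespace Pool.Agent.R829.EL

open NumberField Module MvPolynomial Filter Topology

noncomputable section

section Forms

variable {R S : Type*} [CommRing R] [CommRing S]

/-- the pair of forms giving the duplication -/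
def dup (W : WeierstrassCurve R) : Fin 2 → MvPolynomial (Fin 2) R :=
  ![X 0 ^ 4 - C W.b₄ * X 0 ^ 2 * X 1 ^ 2 - C (2 * W.b₆) * X 0 * X 1 ^ 3 - C W.b₈ * X 1 ^ 4,
    C 4 * X 0 ^ 3 * X 1 + C W.b₂ * X 0 ^ 2 * X 1 ^ 2 + C (2 * W.b₄) * X 0 * X 1 ^ 3 +
      C W.b₆ * X 1 ^ 4]

lemma map_dup (f : R →+* S) (W : WeierstrassCurve R) (i : Fin 2) :
    MvPolynomial.map f (dup W i) = dup (W.map f) i := by
  have h2 : f 2 = 2 := map_ofNat f 2
  have h4 : f 4 = 4 := map_ofNat f 4
  fin_cases i <;> simp [dup, WeierstrassCurve.map_b₂, WeierstrassCurve.map_b₄,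
    WeierstrassCurve.map_b₆, WeierstrassCurve.map_b₈, h2, h4]

lemma dup_hom (W : WeierstrassCurve R) (i : Fin 2) : (dup W i).IsHomogeneous 4 := by
  have h0 : ∀ (a : R) (k l : ℕ), k + l = 4 →
      (C a * X (0 : Fin 2) ^ k * X 1 ^ l : MvPolynomial (Fin 2) R).IsHomogeneous 4 := by
    intro a k l hkl
    have h1 := ((isHomogeneous_C (Fin 2) a).mul (isHomogeneous_X_pow (R := R) (0 : Fin 2) k)).mul
      (isHomogeneous_X_pow (R := R) (1 : Fin 2) l)
    rwa [zero_add, hkl] at h1
  fin_cases i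
  · have e : dup W 0 = C 1 * X 0 ^ 4 * X 1 ^ 0 - C W.b₄ * X 0 ^ 2 * X 1 ^ 2 -
        C (2 * W.b₆) * X 0 ^ 1 * X 1 ^ 3 - C W.b₈ * X 0 ^ 0 * X 1 ^ 4 := by
      simp [dup]
    show (dup W 0).IsHomogeneous 4
    rw [e]
    exact (((h0 _ 4 0 rfl).sub (h0 _ 2 2 rfl)).sub (h0 _ 1 3 rfl)).sub (h0 _ 0 4 rfl)
  · have e : dup W 1 = C 4 * X 0 ^ 3 * X 1 ^ 1 + C W.b₂ * X 0 ^ 2 * X 1 ^ 2 +
        C (2 * W.b₄) * X 0 ^ 1 * X 1 ^ 3 + C W.b₆ * X 0 ^ 0 * X 1 ^ 4 := by
      simp [dup]
    show (dup W 1).IsHomogeneous 4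
    rw [e]
    exact (((h0 _ 3 1 rfl).add (h0 _ 2 2 rfl)).add (h0 _ 1 3 rfl)).add (h0 _ 0 4 rfl)

/-- the eighth powers of the variables are combinations of the two forms -/
lemma dup_cond (W : WeierstrassCurve R) [W.IsElliptic] :
    ∃ U : Fin 2 → Fin 2 → MvPolynomial (Fin 2) R, ∀ j, X j ^ 8 = ∑ i, U j i * dup W i := by
  set W' : WeierstrassCurve (MvPolynomial (Fin 2) R) := W.map C with hW'
  set x : Fin 3 → MvPolynomial (Fin 2) R := ![X 0 ^ 2, 2 * X 0 * X 1, X 1 ^ 2] with hx
  have hb2 : W'.b₂ = C W.b₂ := by rw [hW', WeierstrassCurve.map_b₂]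
  have hb4 : W'.b₄ = C W.b₄ := by rw [hW', WeierstrassCurve.map_b₄]
  have hb6 : W'.b₆ = C W.b₆ := by rw [hW', WeierstrassCurve.map_b₆]
  have hb8 : W'.b₈ = C W.b₈ := by rw [hW', WeierstrassCurve.map_b₈]
  have hc := W'.addSubMapCoeff_condition x
  have c2 : (C (2 : R) : MvPolynomial (Fin 2) R) = 2 := map_ofNat C 2
  have c4 : (C (4 : R) : MvPolynomial (Fin 2) R) = 4 := map_ofNat C 4
  have e0 : (W'.addSubMap 0).eval x = dup W 0 := by
    simp [WeierstrassCurve.addSubMap, dup, hx, hb4, hb6, hb8, c2]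
    ring
  have e1 : (W'.addSubMap 1).eval x = dup W 1 := by
    simp [WeierstrassCurve.addSubMap, dup, hx, hb2, hb4, hb6, c2, c4]
    ring
  have e2 : (W'.addSubMap 2).eval x = 0 := by
    simp [WeierstrassCurve.addSubMap, hx]
    ring
  simp only [Fin.sum_univ_three, e0, e1, e2, mul_zero, add_zero] at hc
  refine ⟨fun j i => (C (↑W'.Δ'⁻¹ : MvPolynomial (Fin 2) R) *
    W'.addSubMapCoeff (if j = 0 then 0 else 2, if i = 0 then 0 else 1)).eval x, fun j => ?_⟩
  fin_cases j
  · have := hc 0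
    simp only [Fin.sum_univ_two]
    simp only [Fin.isValue, Fin.zero_eta, if_true, one_ne_zero, if_false]
    rw [this]
    simp [hx]
    ring
  · have := hc 2
    simp only [Fin.sum_univ_two]
    simp only [Fin.isValue, Fin.mk_one, if_true, one_ne_zero, if_false]
    rw [this]
    simp [hx]
    ring

end Forms

section Good

variable {K : Type} [Field K] [NumberField K]

/-- the `v`-integral elements -/
def intRing (v : FinitePlace K) : Subring K where
  carrier := {x | v x ≤ 1}
  mul_mem' := by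
    intro a b ha hb
    simp only [Set.mem_ofPred_eq] at *
    rw [map_mul]
    exact mul_le_one₀ ha (apply_nonneg v b) hb
  one_mem' := by simp
  add_mem' := by
    intro a b ha hb
    simp only [Set.mem_ofPred_eq] at *
    exact (FinitePlace.add_le v a b).trans (max_le ha hb)
  zero_mem' := by simp
  neg_mem' := by
    intro a ha
    simp only [Set.mem_ofPred_eq] at *
    have : v (-a) = v a := by
      have := v.1.map_neg a
      exact this
    rw [this]
    exact ha

/-- good reduction of the duplication -/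
lemma dup_good (v : FinitePlace K) (W : WeierstrassCurve K) (h1 : v W.a₁ ≤ 1) (h2 : v W.a₂ ≤ 1)
    (h3 : v W.a₃ ≤ 1) (h4 : v W.a₄ ≤ 1) (h6 : v W.a₆ ≤ 1) (hΔ : v W.Δ = 1) :
    H627.LR.GoodRed (N := 1) v (dup W) := by
  set A := intRing v with hA
  set WA : WeierstrassCurve A := ⟨⟨W.a₁, h1⟩, ⟨W.a₂, h2⟩, ⟨W.a₃, h3⟩, ⟨W.a₄, h4⟩, ⟨W.a₆, h6⟩⟩
    with hWA
  have hmap : WA.map A.subtype = W := by
    ext <;> simp [hWA, WeierstrassCurve.map]
  have hΔ' : A.subtype WA.Δ = W.Δ := by
    rw [← WeierstrassCurve.map_Δ, hmap]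
  have hne : W.Δ ≠ 0 := by
    intro h
    rw [h] at hΔ
    simp at hΔ
  have hinv : v (W.Δ)⁻¹ ≤ 1 := by
    rw [map_inv₀, hΔ, inv_one]
  have hunit : IsUnit WA.Δ := by
    refine IsUnit.of_mul_eq_one ⟨(W.Δ)⁻¹, hinv⟩ ?_
    apply Subtype.ext
    show A.subtype WA.Δ * (W.Δ)⁻¹ = 1
    rw [hΔ', mul_inv_cancel₀ hne]
  have : WA.IsElliptic := ⟨hunit⟩
  obtain ⟨U, hU⟩ := dup_cond WA
  have hdup : ∀ i, dup W i = MvPolynomial.map A.subtype (dup WA i) := by
    intro i
    rw [map_dup, hmap]
  refine ⟨fun i m => ?_, 8, fun j i => MvPolynomial.map A.subtype (U j i), fun j i m => ?_, fun j => ?_⟩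
  · rw [hdup, coeff_map]
    exact ((dup WA i).coeff m).2
  · rw [coeff_map]
    exact ((U j i).coeff m).2
  · have := congrArg (MvPolynomial.map A.subtype) (hU j)
    rw [map_pow, map_X, map_sum] at this
    rw [this]
    refine Finset.sum_congr rfl fun i _ => ?_
    rw [map_mul, hdup]

end Good

section Points

variable {L : Type*} [Field L] {W : WeierstrassCurve.Affine L}

/-- the coordinate vector of the image of a point on the projective line -/
def xc : W.Point → Fin 2 → L
  | .zero => ![1, 0]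
  | .some x _ _ => ![x, 1]

lemma xc_ne_zero (P : W.Point) : xc P ≠ 0 := by
  cases P with
  | zero =>
    intro h
    have := congrFun h 0
    simp [xc] at this
  | some x y hP =>
    intro h
    have := congrFun h 1
    simp [xc] at this

lemma eq_or_neg_of_xc {P Q : W.Point} {c : L} (hc : c ≠ 0) (h : xc P = c • xc Q) :
    P = Q ∨ P = -Q := by
  cases P with
  | zero =>
    cases Q with
    | zero => exact Or.inl rfl
    | some x y hQ =>
      have := congrFun h 1
      simp [xc] at this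
      exact absurd this.symm hc
  | some x y hP =>
    cases Q with
    | zero =>
      have := congrFun h 1
      simp [xc] at this
    | some x' y' hQ =>
      have h1 := congrFun h 1
      have h0 := congrFun h 0
      simp [xc] at h1 h0
      rw [← h1, one_mul] at h0
      exact WeierstrassCurve.Affine.Point.X_eq_iff.mp h0

variable [DecidableEq L]

/-- the values of the forms -/
def av {K : Type*} [CommRing K] [Algebra K L] (F : Fin 2 → MvPolynomial (Fin 2) K)
    (z : Fin 2 → L) : Fin 2 → L := fun i => aeval z (F i)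

lemma av_dup {K : Type*} [CommRing K] [Algebra K L] (V : WeierstrassCurve K) (x z : L) :
    av (dup V) ![x, z] =
      ![x ^ 4 - (V.map (algebraMap K L)).b₄ * x ^ 2 * z ^ 2 -
          2 * (V.map (algebraMap K L)).b₆ * x * z ^ 3 - (V.map (algebraMap K L)).b₈ * z ^ 4,
        4 * x ^ 3 * z + (V.map (algebraMap K L)).b₂ * x ^ 2 * z ^ 2 +
          2 * (V.map (algebraMap K L)).b₄ * x * z ^ 3 + (V.map (algebraMap K L)).b₆ * z ^ 4] := by
  have h2 : algebraMap K L 2 = 2 := map_ofNat (algebraMap K L) 2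
  have h4 : algebraMap K L 4 = 4 := map_ofNat (algebraMap K L) 4
  ext i
  fin_cases i <;> simp [av, dup, WeierstrassCurve.map_b₂, WeierstrassCurve.map_b₄,
    WeierstrassCurve.map_b₆, WeierstrassCurve.map_b₈, h2, h4]

/-- the duplication formula -/
lemma dup_pt (W : WeierstrassCurve.Affine L) (P : W.Point) : ∃ c : L, c ≠ 0 ∧
    (![(xc P 0) ^ 4 - W.b₄ * (xc P 0) ^ 2 * (xc P 1) ^ 2 - 2 * W.b₆ * (xc P 0) * (xc P 1) ^ 3 -
        W.b₈ * (xc P 1) ^ 4,
      4 * (xc P 0) ^ 3 * (xc P 1) + W.b₂ * (xc P 0) ^ 2 * (xc P 1) ^ 2 +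
        2 * W.b₄ * (xc P 0) * (xc P 1) ^ 3 + W.b₆ * (xc P 1) ^ 4] : Fin 2 → L) =
      c • xc (2 • P) := by
  cases P with
  | zero =>
    refine ⟨1, one_ne_zero, ?_⟩
    have h2 : (2 : ℕ) • (WeierstrassCurve.Affine.Point.zero : W.Point) =
        WeierstrassCurve.Affine.Point.zero := by
      exact smul_zero 2
    rw [h2]
    ext i
    fin_cases i <;> simp [xc]
  | some x y hP =>
    have heq := (WeierstrassCurve.Affine.equation_iff x y).mp hP.1
    have hns := (WeierstrassCurve.Affine.nonsingular_iff x y).mp hP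
    have key : (3 * x ^ 2 + 2 * W.a₂ * x + W.a₄ - W.a₁ * y) ^ 2 +
        W.a₁ * (3 * x ^ 2 + 2 * W.a₂ * x + W.a₄ - W.a₁ * y) * (2 * y + W.a₁ * x + W.a₃) -
        (W.a₂ + 2 * x) * (2 * y + W.a₁ * x + W.a₃) ^ 2 =
        x ^ 4 - W.b₄ * x ^ 2 - 2 * W.b₆ * x - W.b₈ := by
      simp only [WeierstrassCurve.b₄, WeierstrassCurve.b₆, WeierstrassCurve.b₈]
      linear_combination (-(W.a₁ ^ 2 + 4 * W.a₂ + 8 * x)) * heq
    have key2 : (2 * y + W.a₁ * x + W.a₃) ^ 2 =
        4 * x ^ 3 + W.b₂ * x ^ 2 + 2 * W.b₄ * x + W.b₆ := by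
      simp only [WeierstrassCurve.b₂, WeierstrassCurve.b₄, WeierstrassCurve.b₆]
      linear_combination 4 * heq
    by_cases hy : y = W.negY x y
    · have hD : 2 * y + W.a₁ * x + W.a₃ = 0 := by
        rw [WeierstrassCurve.Affine.negY] at hy
        linear_combination hy
      have h2 : (2 : ℕ) • (WeierstrassCurve.Affine.Point.some x y hP : W.Point) = 0 := by
        rw [two_nsmul]
        exact WeierstrassCurve.Affine.Point.add_self_of_Y_eq hy
      have hN : 3 * x ^ 2 + 2 * W.a₂ * x + W.a₄ - W.a₁ * y ≠ 0 := by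
        rcases hns.2 with h | h
        · intro h0
          apply h
          linear_combination -h0
        · intro _
          apply h
          rw [WeierstrassCurve.Affine.negY] at hy
          exact hy
      refine ⟨x ^ 4 - W.b₄ * x ^ 2 - 2 * W.b₆ * x - W.b₈, ?_, ?_⟩
      · rw [← key, hD]
        have : (3 * x ^ 2 + 2 * W.a₂ * x + W.a₄ - W.a₁ * y) ^ 2 ≠ 0 := pow_ne_zero 2 hN
        simpa using this
      · rw [h2]
        have e : xc (0 : W.Point) = ![1, 0] := rfl
        rw [e]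
        ext i
        fin_cases i
        · simp [xc]
        · have h0 : 4 * x ^ 3 + W.b₂ * x ^ 2 + 2 * W.b₄ * x + W.b₆ = 0 := by
            rw [← key2, hD]
            ring
          simp [xc]
          linear_combination h0
    · have hD : 2 * y + W.a₁ * x + W.a₃ ≠ 0 := by
        intro h
        apply hy
        rw [WeierstrassCurve.Affine.negY]
        linear_combination h
      have h2 : (2 : ℕ) • (WeierstrassCurve.Affine.Point.some x y hP : W.Point) =
          WeierstrassCurve.Affine.Point.some _ _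
            (WeierstrassCurve.Affine.nonsingular_add hP hP fun hxy => hy hxy.right) := by
        rw [two_nsmul]
        exact WeierstrassCurve.Affine.Point.add_self_of_Y_ne hy
      have hsl : W.slope x x y y =
          (3 * x ^ 2 + 2 * W.a₂ * x + W.a₄ - W.a₁ * y) / (2 * y + W.a₁ * x + W.a₃) := by
        rw [WeierstrassCurve.Affine.slope_of_Y_ne rfl hy, WeierstrassCurve.Affine.negY]
        congr 1
        ring
      refine ⟨(2 * y + W.a₁ * x + W.a₃) ^ 2, pow_ne_zero 2 hD, ?_⟩
      rw [h2]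
      ext i
      fin_cases i
      · have gen : ∀ N D : L, D ≠ 0 → D ^ 2 * ((N / D) ^ 2 + W.a₁ * (N / D) - W.a₂ - x - x) =
            N ^ 2 + W.a₁ * N * D - (W.a₂ + 2 * x) * D ^ 2 := by
          intro N D h
          field_simp
          ring
        simp only [xc, WeierstrassCurve.Affine.addX, hsl]
        have := gen (3 * x ^ 2 + 2 * W.a₂ * x + W.a₄ - W.a₁ * y) _ hD
        simp
        rw [this, key]
      · simp [xc]
        linear_combination -key2

lemma dup_mul {K : Type*} [CommRing K] [Algebra K L] (V : WeierstrassCurve K)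
    (hV : V.map (algebraMap K L) = W) (P : W.Point) :
    ∃ c : L, c ≠ 0 ∧ av (dup V) (xc P) = c • xc (2 • P) := by
  obtain ⟨c, hc, h⟩ := dup_pt W P
  refine ⟨c, hc, ?_⟩
  rw [← h]
  have e : xc P = ![xc P 0, xc P 1] := by
    ext i
    fin_cases i <;> rfl
  rw [e, av_dup, hV]
  rfl

end Points

end

end Pool.Agent.R829.EL
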