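import Mathlib
import Pool.Agent.R829.EL.Dup
import Pool.Agent.R829.BH.Fin

/-!
Néron-Tate heights of points of elliptic curves with good reduction at a place.
-/

set_option autoImplicit false
set_option linter.unusedSectionVars false

namespace Pool.Agent.R829.EL

open NumberField Module MvPolynomial Filter Topology

noncomputable section

section Points

variable {L : Type*} [Field L] {W : WeierstrassCurve.Affine L} [DecidableEq L]

lemma fin_order_of_eq {P : W.Point} {p m n : ℕ} (hp : 2 ≤ p) (hmn : m ≠ n)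
    (h : p ^ n • P = p ^ m • P ∨ p ^ n • P = -(p ^ m • P)) : IsOfFinAddOrder P := by
  rw [isOfFinAddOrder_iff_zsmul_eq_zero]
  have hne : p ^ n ≠ p ^ m := fun h => hmn (Nat.pow_right_injective hp h).symm
  have hpos : 0 < p ^ n := by positivity
  have hpos' : 0 < p ^ m := by positivity
  rcases h with h | h
  · refine ⟨((p ^ n : ℕ) : ℤ) - ((p ^ m : ℕ) : ℤ), ?_, ?_⟩
    · intro h0
      apply hne
      exact_mod_cast sub_eq_zero.mp h0
    · rw [sub_zsmul, natCast_zsmul, natCast_zsmul, h, add_neg_cancel]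
  · refine ⟨((p ^ n : ℕ) : ℤ) + ((p ^ m : ℕ) : ℤ), ?_, ?_⟩
    · have : (0 : ℤ) < ((p ^ n : ℕ) : ℤ) + ((p ^ m : ℕ) : ℤ) := by
        exact_mod_cast Nat.add_pos_left hpos _
      exact this.ne'
    · rw [add_zsmul, natCast_zsmul, natCast_zsmul, h, neg_add_cancel]

lemma av_smul {K : Type*} [CommRing K] [Algebra K L] {F : Fin 2 → MvPolynomial (Fin 2) K} {q : ℕ}
    (hF : ∀ i, (F i).IsHomogeneous q) (c : L) (z : Fin 2 → L) :
    av F (c • z) = c ^ q • av F z := by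
  ext i
  simp only [av, Pi.smul_apply, smul_eq_mul]
  exact Pool.Agent.H420R3.aeval_smul_hom (hF i) c z

lemma iter_xc {K : Type*} [CommRing K] [Algebra K L] {F : Fin 2 → MvPolynomial (Fin 2) K}
    {q p : ℕ} (hF : ∀ i, (F i).IsHomogeneous q)
    (hmul : ∀ P : W.Point, ∃ c : L, c ≠ 0 ∧ av F (xc P) = c • xc (p • P)) (P : W.Point)
    (n : ℕ) : ∃ c : L, c ≠ 0 ∧ (av F)^[n] (xc P) = c • xc (p ^ n • P) := by
  induction n with
  | zero => exact ⟨1, one_ne_zero, by simp⟩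
  | succ n ih =>
    obtain ⟨c, hc, hc'⟩ := ih
    obtain ⟨d, hd, hd'⟩ := hmul (p ^ n • P)
    refine ⟨c ^ q * d, mul_ne_zero (pow_ne_zero _ hc) hd, ?_⟩
    rw [Function.iterate_succ_apply', hc', av_smul hF, hd', smul_smul, smul_smul, ← pow_succ']

lemma wandering_xc {K : Type*} [CommRing K] [Algebra K L] {F : Fin 2 → MvPolynomial (Fin 2) K}
    {q p : ℕ} (hp : 2 ≤ p) (hF : ∀ i, (F i).IsHomogeneous q)
    (hmul : ∀ P : W.Point, ∃ c : L, c ≠ 0 ∧ av F (xc P) = c • xc (p • P)) {P : W.Point}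
    (hP : ¬ IsOfFinAddOrder P) :
    ¬ ∃ m n : ℕ, m ≠ n ∧ ∃ c : L, c ≠ 0 ∧ (av F)^[n] (xc P) = c • (av F)^[m] (xc P) := by
  rintro ⟨m, n, hmn, c, hc, h⟩
  obtain ⟨a, ha, ha'⟩ := iter_xc hF hmul P n
  obtain ⟨b, hb, hb'⟩ := iter_xc hF hmul P m
  rw [ha', hb', smul_smul] at h
  apply hP
  refine fin_order_of_eq hp hmn (eq_or_neg_of_xc (c := a⁻¹ * (c * b)) ?_ ?_)
  · exact mul_ne_zero (inv_ne_zero ha) (mul_ne_zero hc hb)
  · rw [← smul_smul, ← h, smul_smul, inv_mul_cancel₀ ha, one_smul]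

end Points

open Classical in
/-- **the theorem** -/
theorem main {K : Type} [Field K] [NumberField K] (W : WeierstrassCurve.Affine K)
    (v : FinitePlace K) (h1 : v W.a₁ ≤ 1) (h2 : v W.a₂ ≤ 1)
    (h3 : v W.a₃ ≤ 1) (h4 : v W.a₄ ≤ 1) (h6 : v W.a₆ ≤ 1) (hΔ : v W.Δ = 1)
    {p : ℕ} (hp : p.Prime) (hpv : v (p : K) < 1) {m : ℕ} (hm : 1 ≤ m) (B D a : ℕ) :
    ∃ κ : ℝ, 0 < κ ∧ ∀ (E L : Type) [Field E] [NumberField E] [Field L] [NumberField L]
      [Algebra K E] [Algebra K L] [Algebra E L] [IsScalarTower K E L] [IsGalois K E],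
      (∀ (σ : Gal(E/K)) (𝔓 : Ideal (𝓞 E)), 𝔓.IsPrime →
        𝔓.under (𝓞 K) = v.maximalIdeal.asIdeal →
        (∀ z : 𝓞 E, σ • z - z ^ v.maximalIdeal.asIdeal.absNorm ∈ 𝔓) →
        (Set.range fun g : Gal(E/K) => g * σ ^ m * g⁻¹).ncard ≤ B) →
      (∀ 𝔓 : Ideal (𝓞 E), 𝔓.IsPrime → 𝔓.under (𝓞 K) = v.maximalIdeal.asIdeal →
        ¬ p ^ a ∣ 𝔓.ramificationIdx (𝓞 K)) →
      finrank E L ≤ D →
      ∀ P : (W.baseChange L).Point, ¬ IsOfFinAddOrder P →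
      ∃ h : ℝ, Tendsto (fun n : ℕ => Height.logHeight (xc (2 ^ n • P)) /
          (2 * (finrank ℚ L : ℝ) * (4 : ℝ) ^ n)) atTop (𝓝 h) ∧ κ ≤ h := by
  obtain ⟨κ, hκ, h⟩ := R829.BH.relative_wild (d := 4) (by norm_num) (dup W) (dup_hom W) v
    (dup_good v W h1 h2 h3 h4 h6 hΔ) hp hpv hm B D a
  refine ⟨κ / 2, by positivity, fun E L _ _ _ _ _ _ _ _ _ hconj hram hD P hP => ?_⟩
  have hmul : ∀ Q : (W.baseChange L).Point, ∃ c : L, c ≠ 0 ∧
      av (dup W) (xc Q) = c • xc (2 • Q) := fun Q => dup_mul W rfl Q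
  obtain ⟨t, ht, hκt⟩ := h E L hconj hram hD (xc P) (xc_ne_zero P)
    (wandering_xc le_rfl (dup_hom W) hmul hP)
  refine ⟨t / 2, ?_, by linarith⟩
  refine (ht.div_const 2).congr fun n => ?_
  obtain ⟨c, hc, hc'⟩ := iter_xc (dup_hom W) hmul P n
  have e : (Pool.Agent.W238.Leh.act (dup W))^[n] (xc P) = c • xc (2 ^ n • P) := hc'
  rw [e, Height.logHeight_smul_eq_logHeight _ hc, div_div]
  congr 1
  push_cast
  ring

open Classical in
/-- the height of a torsion point is zero -/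
lemma torsion_height {L : Type} [Field L] [NumberField L] {W : WeierstrassCurve.Affine L}
    {P : W.Point} (hP : IsOfFinAddOrder P) :
    Tendsto (fun n : ℕ => Height.logHeight (xc (2 ^ n • P)) /
      (2 * (finrank ℚ L : ℝ) * (4 : ℝ) ^ n)) atTop (𝓝 0) := by
  have hfin : (Set.range fun k : ℕ => k • P).Finite := by
    have h1 : (AddSubmonoid.multiples P : Set W.Point).Finite := finite_multiples.mpr hP
    refine h1.subset ?_
    rintro _ ⟨k, rfl⟩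
    exact ⟨k, rfl⟩
  obtain ⟨M, hM⟩ : ∃ M : ℝ, ∀ k : ℕ, Height.logHeight (xc (k • P)) ≤ M := by
    obtain ⟨M, hM⟩ := (hfin.image fun Q => Height.logHeight (xc Q)).bddAbove
    exact ⟨M, fun k => hM ⟨k • P, ⟨k, rfl⟩, rfl⟩⟩
  have hL : (0 : ℝ) < finrank ℚ L := by exact_mod_cast finrank_pos
  have hlim : Tendsto (fun n : ℕ => M / (2 * (finrank ℚ L : ℝ)) * ((1 / 4 : ℝ) ^ n)) atTop
      (𝓝 0) := by
    have := (tendsto_pow_atTop_nhds_zero_of_lt_one (r := (1 / 4 : ℝ)) (by norm_num)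
      (by norm_num)).const_mul (M / (2 * (finrank ℚ L : ℝ)))
    simpa using this
  refine squeeze_zero (fun n => ?_) (fun n => ?_) hlim
  · exact div_nonneg ((Height.logHeight_nonneg _)) (by positivity)
  · rw [one_div, inv_pow, ← div_eq_mul_inv, div_div]
    gcongr
    exact hM _

open Classical in
/-- **the theorem for products of elliptic curves** -/
theorem main_prod {K : Type} [Field K] [NumberField K] {ι : Type} [Fintype ι]
    (W : ι → WeierstrassCurve.Affine K) (v : FinitePlace K)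
    (hW : ∀ i, v (W i).a₁ ≤ 1 ∧ v (W i).a₂ ≤ 1 ∧ v (W i).a₃ ≤ 1 ∧ v (W i).a₄ ≤ 1 ∧
      v (W i).a₆ ≤ 1 ∧ v (W i).Δ = 1)
    {p : ℕ} (hp : p.Prime) (hpv : v (p : K) < 1) {m : ℕ} (hm : 1 ≤ m) (B D a : ℕ) :
    ∃ κ : ℝ, 0 < κ ∧ ∀ (E L : Type) [Field E] [NumberField E] [Field L] [NumberField L]
      [Algebra K E] [Algebra K L] [Algebra E L] [IsScalarTower K E L] [IsGalois K E],
      (∀ (σ : Gal(E/K)) (𝔓 : Ideal (𝓞 E)), 𝔓.IsPrime →
        𝔓.under (𝓞 K) = v.maximalIdeal.asIdeal →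
        (∀ z : 𝓞 E, σ • z - z ^ v.maximalIdeal.asIdeal.absNorm ∈ 𝔓) →
        (Set.range fun g : Gal(E/K) => g * σ ^ m * g⁻¹).ncard ≤ B) →
      (∀ 𝔓 : Ideal (𝓞 E), 𝔓.IsPrime → 𝔓.under (𝓞 K) = v.maximalIdeal.asIdeal →
        ¬ p ^ a ∣ 𝔓.ramificationIdx (𝓞 K)) →
      finrank E L ≤ D →
      ∀ P : (∀ i, ((W i).baseChange L).Point), (∃ i, ¬ IsOfFinAddOrder (P i)) →
      ∃ h : ι → ℝ, (∀ i, Tendsto (fun n : ℕ => Height.logHeight (xc (2 ^ n • P i)) /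
          (2 * (finrank ℚ L : ℝ) * (4 : ℝ) ^ n)) atTop (𝓝 (h i))) ∧ κ ≤ ∑ i, h i := by
  have hmain := fun i => main (W i) v (hW i).1 (hW i).2.1 (hW i).2.2.1 (hW i).2.2.2.1
    (hW i).2.2.2.2.1 (hW i).2.2.2.2.2 hp hpv hm B D a
  choose κ hκ hb using hmain
  obtain ⟨M, hM⟩ : ∃ M : ℝ, ∀ i, M ≤ Real.log (κ i) := by
    obtain ⟨M, hM⟩ := (Set.finite_range fun i => Real.log (κ i)).bddBelow
    exact ⟨M, fun i => hM ⟨i, rfl⟩⟩
  refine ⟨Real.exp M, Real.exp_pos M, fun E L _ _ _ _ _ _ _ _ _ hconj hram hD P hP => ?_⟩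
  have hall : ∀ i, ∃ h : ℝ, Tendsto (fun n : ℕ => Height.logHeight (xc (2 ^ n • P i)) /
      (2 * (finrank ℚ L : ℝ) * (4 : ℝ) ^ n)) atTop (𝓝 h) ∧ 0 ≤ h ∧
      (¬ IsOfFinAddOrder (P i) → κ i ≤ h) := by
    intro i
    by_cases hi : IsOfFinAddOrder (P i)
    · exact ⟨0, torsion_height hi, le_rfl, fun h => absurd hi h⟩
    · obtain ⟨h, h1, h2⟩ := hb i E L hconj hram hD (P i) hi
      exact ⟨h, h1, (hκ i).le.trans h2, fun _ => h2⟩
  choose h h1 h2 h3 using hall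
  refine ⟨h, h1, ?_⟩
  obtain ⟨i, hi⟩ := hP
  calc Real.exp M ≤ κ i := by
        rw [← Real.exp_log (hκ i)]
        exact Real.exp_le_exp.mpr (hM i)
    _ ≤ h i := h3 i hi
    _ ≤ ∑ i, h i := Finset.single_le_sum (fun j _ => h2 j) (Finset.mem_univ i)

end

end Pool.Agent.R829.EL
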